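import Pool.Agent.V11244.TreeF

/-! # A tree forcing with a Borel set that is not measurable -/

namespace Pool.Agent.Results.MP_9b1908_lc.BorelNotMeasurable

open Pool.Agent.V11244.TreeF

/-- There are a tree forcing `P` on the finite sequences of natural numbers and a Borel subset `A`
of the Baire space that is not `P`-measurable; moreover, for no `S ∈ P` one of the sets `[S] \ A`
and `[S] ∩ A` is in the `σ`-ideal of `P`. -/
theorem result : ∃ P : Set (Set (List ℕ)), IsTreeForcing P ∧ ∃ A : Set (ℕ → ℕ),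
    @MeasurableSet (ℕ → ℕ) (borel (ℕ → ℕ)) A ∧ ¬ PMeasurable P A ∧
      ∀ S ∈ P, ¬ InIdeal P (br S \ A) ∧ ¬ InIdeal P (br S ∩ A) :=
  ⟨P, isTreeForcing_P, A, borel_A, not_measurable_A,
    fun _ hS => ⟨not_inIdeal_diff hS, not_inIdeal_inter hS⟩⟩

end Pool.Agent.Results.MP_9b1908_lc.BorelNotMeasurable
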